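import Pool.Agent.Work.MP_b73316_nt.Q.FinQ

/-!
# MP_b73316_nt: `ζ_p(5) ≠ 0` for a set of primes of lower logarithmic density at least `9/200`

`ζ_p(n) = p^n/(p^n - 1) · L_p(n, ω^(1-n))`, and `L_p(n, ω^(1-n))` is the limit of
`1/(n-1) · p^(-k) ∑_{0 < m < p^k, p ∤ m} m^(1-n)`.
-/

set_option autoImplicit false

open Filter

namespace Pool.Agent.Results.MP_b73316_nt.ZetaFiveLogDensity

/-- The sequence (in `k`) whose limit is `ζ_p(n)`:
`p^n/(p^n - 1) · 1/(n-1) · p^(-k) · ∑_{0 < m < p^k, p ∤ m} m^(1-n)`. -/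
noncomputable def zetaSeq (p n : ℕ) [Fact p.Prime] (k : ℕ) : ℚ_[p] :=
  ((p : ℚ_[p]) ^ n / ((p : ℚ_[p]) ^ n - 1)) * ((n : ℚ_[p]) - 1)⁻¹ *
    (((p : ℚ_[p]) ^ k)⁻¹ *
      ∑ m ∈ (Finset.range (p ^ k)).filter (fun m => ¬ p ∣ m), ((m : ℚ_[p]) ^ (n - 1))⁻¹)

/-- `p` is prime, `ζ_p(n)` exists and `|ζ_p(n)|_p > p^(-(n + s))`, which means that
`L_p(n, ω^(1-n))` is not divisible by `p^s` (in particular `ζ_p(n) ≠ 0`). -/
def NotDivisible (s p n : ℕ) : Prop :=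
  ∃ h : p.Prime, haveI := Fact.mk h; ∃ z : ℚ_[p],
    Tendsto (zetaSeq p n) atTop (nhds z) ∧ (p : ℝ) ^ (-((n : ℤ) + s)) < ‖z‖

open Classical in
/-- For all large `X`, the sum of `(log p)/p` over the primes `p ≤ X` for which
`L_p(5, ω^(-4))` is not divisible by `p^10` is at least `9 / 200 log X` (the sum over all the primes
`p ≤ X` is `log X + O(1)`): lower logarithmic density at least `9 / 200`. -/
theorem result : ∀ᶠ X : ℕ in atTop,
    (9 / 200 : ℝ) * Real.log X ≤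
      ∑ p ∈ (Finset.Icc 1 X).filter (fun p => NotDivisible 10 p 5), Real.log p / p := by
  have h := Pool.Agent.Work.MP_b73316_nt.Q.log5
  refine h.mono fun X hX => hX.trans ?_
  refine Finset.sum_le_sum_of_subset_of_nonneg ?_ fun p _ _ =>
    div_nonneg (Real.log_natCast_nonneg p) (Nat.cast_nonneg p)
  intro p hp
  rw [Finset.mem_filter] at hp ⊢
  obtain ⟨h1, hp, z, hz1, hz2⟩ := hp
  exact ⟨h1, hp, z, hz2, hz1⟩

end Pool.Agent.Results.MP_b73316_nt.ZetaFiveLogDensity
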