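import Pool.Agent.Work.MP_b73316_nt.Q.FinQ

/-!
# MP_b73316_nt: `ζ_p(3) ≠ 0` for at least `1/16` of the primes (lower density)

`ζ_p(n) = p^n/(p^n - 1) · L_p(n, ω^(1-n))`, and `L_p(n, ω^(1-n))` is the limit of
`1/(n-1) · p^(-k) ∑_{0 < m < p^k, p ∤ m} m^(1-n)`.
-/

set_option autoImplicit false

open Filter

namespace Pool.Agent.Results.MP_b73316_nt.ZetaThreeDensity

/-- The sequence (in `k`) whose limit is `ζ_p(n)`:
`p^n/(p^n - 1) · 1/(n-1) · p^(-k) · ∑_{0 < m < p^k, p ∤ m} m^(1-n)`. -/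
noncomputable def zetaSeq (p n : ℕ) [Fact p.Prime] (k : ℕ) : ℚ_[p] :=
  ((p : ℚ_[p]) ^ n / ((p : ℚ_[p]) ^ n - 1)) * ((n : ℚ_[p]) - 1)⁻¹ *
    (((p : ℚ_[p]) ^ k)⁻¹ *
      ∑ m ∈ (Finset.range (p ^ k)).filter (fun m => ¬ p ∣ m), ((m : ℚ_[p]) ^ (n - 1))⁻¹)

/-- `p` is prime, `ζ_p(n)` exists and `|ζ_p(n)|_p > p^(-(n + s))`, which means that
`L_p(n, ω^(1-n))` is not divisible by `p^s` (in particular `ζ_p(n) ≠ 0`). -/
def NotDivisible (s p n : ℕ) : Prop :=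
  ∃ h : p.Prime, haveI := Fact.mk h; ∃ z : ℚ_[p],
    Tendsto (zetaSeq p n) atTop (nhds z) ∧ (p : ℝ) ^ (-((n : ℤ) + s)) < ‖z‖

/-- For all large `X`, at least `1 / 16 π(X)` of the primes `p ≤ X` are such that
`L_p(3, ω^(-2))` is not divisible by `p^6`. -/
theorem result : ∀ᶠ X : ℕ in atTop,
    (1 / 16 : ℝ) * Nat.primeCounting X ≤
      ({p : ℕ | p ≤ X ∧ NotDivisible 6 p 3}.ncard : ℝ) := by
  classical
  have h := Pool.Agent.Work.MP_b73316_nt.Q.low3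
  refine h.mono fun X hX => hX.trans ?_
  have hfin : {p : ℕ | p ≤ X ∧ NotDivisible 6 p 3}.Finite :=
    (Set.finite_Iic X).subset fun p hp => hp.1
  rw [Set.ncard_eq_toFinset_card _ hfin]
  have hle : ((Finset.Icc 1 X).filter
      (fun p => Pool.Agent.Work.MP_b73316_nt.V.NV 6 p 3)) ⊆ hfin.toFinset := by
    intro p hp
    rw [Finset.mem_filter, Finset.mem_Icc] at hp
    obtain ⟨⟨-, h1⟩, hp, z, hz1, hz2⟩ := hp
    rw [Set.Finite.mem_toFinset]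
    exact ⟨h1, hp, z, hz2, hz1⟩
  have h2 := Finset.card_le_card hle
  exact_mod_cast le_trans (le_of_eq (by congr!)) h2

end Pool.Agent.Results.MP_b73316_nt.ZetaThreeDensity
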